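import Pool.Agent.H15.FOS.Targets

/-!
# MPR: homogeneous equations of elements of `F`
-/

set_option autoImplicit false
open MvPolynomial SC Pool.Agent.H27.LV
open Pool.Agent.H84.SM (dp cr dt)
open Pool.Agent.H92.SF Pool.Agent.H3.SF Pool.Agent.H15.FOS

namespace Pool.Agent.H37.FOS

section

variable {k F : Type} [Field k] [Field F] [Algebra k F]

theorem eig_mul (E : Derivation k F F) {x y s t : F} (hx : E x = s * x) (hy : E y = t * y) :
    E (x * y) = (s + t) * (x * y) := by
  rw [Derivation.leibniz, smul_eq_mul, smul_eq_mul, hx, hy]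
  ring

theorem eig_pow (E : Derivation k F F) {x s : F} (hx : E x = s * x) (n : ℕ) :
    E (x ^ n) = (n * s) * x ^ n := by
  induction n with
  | zero => simp
  | succ n ih =>
    rw [pow_succ, eig_mul E ih hx]
    push_cast
    ring

theorem eig_prod (E : Derivation k F F) {ι : Type} (t : Finset ι) (x s : ι → F)
    (hx : ∀ i, E (x i) = s i * x i) : E (∏ i ∈ t, x i) = (∑ i ∈ t, s i) * ∏ i ∈ t, x i := by
  classical
  induction t using Finset.induction_on with
  | empty => simp
  | insert a t ha ih =>
    rw [Finset.prod_insert ha, Finset.sum_insert ha, eig_mul E (hx a) ih]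

end

theorem fos_MPR (hHRL : T_HRL) : T_MPR := by
  intro k F _ _ _ _ u E a e hu ha0 hI hH
  haveI : CharZero F := charZero_of_injective_algebraMap (algebraMap k F).injective
  refine hHRL k F (algebraMap k F) u E.toLinearMap.toAddMonoidHom a e ha0 ?_ hI
  intro c m i
  show E (eval₂Hom (algebraMap k F) u (monomial m c) * a ^ i) = _
  have h1 : E (∏ l ∈ m.support, u l ^ m l) = ((m.degree : ℕ) : F) * ∏ l ∈ m.support, u l ^ m l := by
    have h2 := eig_prod E m.support (fun l => u l ^ m l) (fun l => ((m l : ℕ) : F)) (by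
      intro l
      have h3 := eig_pow E (x := u l) (s := 1) (by rw [hu l, one_mul]) (m l)
      rw [mul_one] at h3
      exact h3)
    rw [h2]
    congr 1
    have h4 : m.degree = ∑ i ∈ m.support, m i := rfl
    rw [h4, Nat.cast_sum]
  have h2 : E (algebraMap k F c) = 0 * algebraMap k F c := by
    rw [E.map_algebraMap, zero_mul]
  have h3 : E (a ^ i) = (i * (e : F)) * a ^ i := by
    apply eig_pow
    have h4 : E a = (((e : ℕ) : ℤ) : F) * a := hH
    rw [h4]
    push_cast
    rfl
  rw [coe_eval₂Hom, eval₂_monomial]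
  have h5 := eig_mul E (eig_mul E h2 h1) h3
  have h6 : (m.prod fun n e => u n ^ e) = ∏ l ∈ m.support, u l ^ m l := rfl
  rw [h6, h5]
  push_cast
  ring

end Pool.Agent.H37.FOS
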